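import Pool.Agent.Q76.H2.Final

/-!
# MP_7fe07c_an: two scaling numbers force horizontally rigid functions of two variables to be affine

Let `f : ℝ² → ℝ` be continuous and horizontally rigid for two different numbers `c₁, c₂ ≠ 1`: for
`c = c₁` and for `c = c₂` some isometry of `ℝ³` maps the graph of `f` onto the graph of `f (c ·)`.  Then `f`
is affine.  This is Q1 (c), and it implies Q1 (a) and Q1 (b).

Outline.  (1) The directions `(v, t)` with `f (x + s v) ≤ f x + s t` for all `x`, `s > 0` form a closed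
convex cone `K`; the hypothesis says that the three cones `K_c = {(v, t) : (c v, t) ∈ K}`, `c = 1, c₁, c₂`,
are isometric.  (2) Let `P` be the convex set of all slopes `p` with `t ≥ ⟨p, v⟩` on `K`.  The Gaussian
measure of the dual cone of `K_c` is `∫_0^∞ exp(-τ²) γ(c τ P) dτ`.  By the Prekopa-Leindler inequality
`t ↦ γ(t P)` is quasi-concave, and a sign change argument shows that the integral can take the same value
at three different numbers `c` only if `t ↦ γ(t P)` is constant, that is, if `P` is a null set or a cone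
with apex `0`.  (3) If `P` is a null set then the graph of `f` is a cylinder over a planar curve, and the
same argument (with an additional vertical factor) works in the plane.  (4) If `P` is a cone, then `K` is
the product of a plane cone and the vertical half-line; the linear parts of the isometries either fix the
vertical direction, or `K` is an octant whose axes are permuted by them.  In each case some word in the two
affine self-maps of the graph contracts the horizontal plane and does not contract the vertical direction,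
and `f` is constant.
-/

set_option autoImplicit false

namespace Pool.Agent.Results.MP_7fe07c_an.TwoScalings

/-- The plane. -/
abbrev Plane : Type := EuclideanSpace ℝ (Fin 2)

/-- `ℝ³ = ℝ² × ℝ` with the Euclidean norm. -/
abbrev Space : Type := WithLp 2 (Plane × ℝ)

/-- The graph of `f`. -/
def graph (f : Plane → ℝ) : Set Space := {p | p.snd = f p.fst}

/-- `f` is horizontally rigid for `C`: for every `c ∈ C` an isometry of `ℝ³` maps the graph of `f` onto
the graph of `x ↦ f (c x)`. -/
def RigidFor (f : Plane → ℝ) (C : Set ℝ) : Prop :=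
  ∀ c ∈ C, ∃ φ : Space ≃ᵢ Space, φ '' graph f = graph fun x => f (c • x)

/-- `f` is affine: `f x = a + ⟨b, x⟩`. -/
def IsAffine (f : Plane → ℝ) : Prop :=
  ∃ (a : ℝ) (b : Plane), ∀ x, f x = a + inner ℝ b x

open Pool.Agent.Q76.HR in
lemma rel_of_rigid {f : Plane → ℝ} {c : ℝ}
    (h : ∃ φ : Space ≃ᵢ Space, φ '' graph f = graph fun x => f (c • x)) :
    ∃ (O : Sp Plane ≃ₗᵢ[ℝ] Sp Plane) (τ : Sp Plane), Rel O τ f (sc f c) := by
  obtain ⟨φ, hφ⟩ := h
  set ψ := φ.toRealAffineIsometryEquiv with hψ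
  refine ⟨ψ.linearIsometryEquiv, ψ 0, fun p => ?_⟩
  have h1 : ψ.linearIsometryEquiv p + ψ 0 = φ p := by
    have := ψ.map_vadd 0 p
    simp only [vadd_eq_add, add_zero] at this
    rw [← this]
    rfl
  rw [h1]
  constructor
  · intro hp
    have h2 : φ p ∈ φ '' graph f := ⟨p, hp, rfl⟩
    rw [hφ] at h2
    exact h2
  · intro hp
    have h2 : φ p ∈ φ '' graph f := by rw [hφ]; exact hp
    obtain ⟨q, hq, hqp⟩ := h2
    have : q = p := φ.injective hqp
    rw [← this]
    exact hq

/-- Part (c). -/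
theorem part_c (f : Plane → ℝ) (hf : Continuous f) (C : Set ℝ) (hC : ∀ c ∈ C, 0 < c)
    (h : RigidFor f C) (h2 : ∃ c₁ ∈ C, ∃ c₂ ∈ C, c₁ ≠ 1 ∧ c₂ ≠ 1 ∧ c₁ ≠ c₂) : IsAffine f := by
  obtain ⟨c₁, hc₁, c₂, hc₂, h11, h21, h12⟩ := h2
  obtain ⟨O₁, τ₁, hr1⟩ := rel_of_rigid (h c₁ hc₁)
  obtain ⟨O₂, τ₂, hr2⟩ := rel_of_rigid (h c₂ hc₂)
  obtain ⟨L, hL⟩ := Pool.Agent.Q76.H2.main_two hf (hC c₁ hc₁) (hC c₂ hc₂) h11 h21 h12 hr1 hr2
  refine ⟨f 0, (InnerProductSpace.toDual ℝ Plane).symm (LinearMap.toContinuousLinearMap L),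
    fun x => ?_⟩
  rw [InnerProductSpace.toDual_symm_apply]
  exact hL x

/-- A set of positive numbers which contains at most one number different from `1`. -/
lemma sub_pair {C : Set ℝ} (h : ¬ ∃ c₁ ∈ C, ∃ c₂ ∈ C, c₁ ≠ 1 ∧ c₂ ≠ 1 ∧ c₁ ≠ c₂) :
    ∃ d : ℝ, C ⊆ {1, d} := by
  by_cases h1 : ∃ c ∈ C, c ≠ 1
  · obtain ⟨d, hd, hd1⟩ := h1
    refine ⟨d, fun c hc => ?_⟩
    by_contra hcon
    simp only [Set.mem_insert_iff, Set.mem_singleton_iff, not_or] at hcon
    exact h ⟨c, hc, d, hd, hcon.1, hd1, hcon.2⟩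
  · push Not at h1
    refine ⟨1, fun c hc => ?_⟩
    simp [h1 c hc]

/-- **Theorem** (Q1 in full, all three parts are true).  Let `f : ℝ² → ℝ` be continuous and horizontally
rigid for `C ⊆ (0, ∞)`.  Then `f` is affine if (a) `C` is uncountable, or (b) `C` generates a dense
subgroup of the multiplicative group `(0, ∞)`, or (c) `C` has at least two elements different from
`1`. -/
theorem result :
    (∀ (f : Plane → ℝ), Continuous f → ∀ C : Set ℝ, (∀ c ∈ C, 0 < c) → RigidFor f C →
      ¬ C.Countable → IsAffine f) ∧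
    (∀ (f : Plane → ℝ), Continuous f → ∀ C : Set ℝ, (∀ c ∈ C, 0 < c) → RigidFor f C →
      Dense ((Subgroup.closure {x : {x : ℝ // 0 < x} | (x : ℝ) ∈ C} : Subgroup {x : ℝ // 0 < x}) :
        Set {x : ℝ // 0 < x}) → IsAffine f) ∧
    ∀ (f : Plane → ℝ), Continuous f → ∀ C : Set ℝ, (∀ c ∈ C, 0 < c) → RigidFor f C →
      (∃ c₁ ∈ C, ∃ c₂ ∈ C, c₁ ≠ 1 ∧ c₂ ≠ 1 ∧ c₁ ≠ c₂) → IsAffine f := by
  refine ⟨fun f hf C hC h hun => ?_, fun f hf C hC h hd => ?_, part_c⟩
  · refine part_c f hf C hC h ?_
    by_contra hcon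
    obtain ⟨d, hd⟩ := sub_pair hcon
    exact hun ((Set.toFinite {1, d}).countable.mono hd)
  · refine part_c f hf C hC h ?_
    by_contra hcon
    obtain ⟨d, hd'⟩ := sub_pair hcon
    -- the generated subgroup is cyclic
    obtain ⟨e, he⟩ : ∃ e : {x : ℝ // 0 < x}, {x : {x : ℝ // 0 < x} | (x : ℝ) ∈ C} ⊆ {1, e} := by
      by_cases hdpos : 0 < d
      · refine ⟨⟨d, hdpos⟩, fun x hx => ?_⟩
        rcases hd' hx with h1 | h1
        · left; exact Subtype.ext h1
        · right; exact Subtype.ext h1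
      · refine ⟨1, fun x hx => ?_⟩
        rcases hd' hx with h1 | h1
        · left; exact Subtype.ext h1
        · exact absurd x.2 (by rw [h1]; exact hdpos)
    have hle : (Subgroup.closure {x : {x : ℝ // 0 < x} | (x : ℝ) ∈ C}) ≤ Subgroup.zpowers e := by
      rw [Subgroup.closure_le]
      intro x hx
      rcases he hx with h1 | h1
      · rw [h1]; exact (Subgroup.zpowers e).one_mem
      · rw [Set.mem_singleton_iff.1 h1]; exact Subgroup.mem_zpowers e
    have hdz : Dense ((Subgroup.zpowers e : Subgroup {x : ℝ // 0 < x}) : Set {x : ℝ // 0 < x}) :=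
      hd.mono hle
    -- an open interval without powers of `e`
    obtain ⟨a, b, ha, hab, hno⟩ : ∃ a b : ℝ, 0 < a ∧ a < b ∧
        ∀ n : ℤ, ¬ (a < (e : ℝ) ^ n ∧ (e : ℝ) ^ n < b) := by
      rcases lt_trichotomy (e : ℝ) 1 with h1 | h1 | h1
      · refine ⟨e, 1, e.2, h1, fun n hn => ?_⟩
        have h2 : 0 < n := by
          by_contra h3
          exact not_lt.2 (one_le_zpow_of_nonpos₀ e.2 h1.le (not_lt.1 h3)) hn.2
        have h4 : (e : ℝ) ^ n ≤ (e : ℝ) ^ (1 : ℤ) := zpow_le_zpow_right_of_le_one₀ e.2 h1.le h2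
        rw [zpow_one] at h4
        exact not_lt.2 h4 hn.1
      · refine ⟨2, 3, by norm_num, by norm_num, fun n hn => ?_⟩
        rw [h1, one_zpow] at hn
        linarith [hn.1]
      · refine ⟨1, e, one_pos, h1, fun n hn => ?_⟩
        have h2 : 0 < n := by
          by_contra h3
          exact not_lt.2 (zpow_le_one_of_nonpos₀ h1.le (not_lt.1 h3)) hn.1
        have h4 : (e : ℝ) ^ (1 : ℤ) ≤ (e : ℝ) ^ n := zpow_le_zpow_right₀ h1.le h2
        rw [zpow_one] at h4
        exact not_lt.2 h4 hn.2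
    have hopen : IsOpen {x : {x : ℝ // 0 < x} | a < (x : ℝ) ∧ (x : ℝ) < b} :=
      (isOpen_lt continuous_const continuous_subtype_val).inter
        (isOpen_lt continuous_subtype_val continuous_const)
    obtain ⟨x, hx, hxz⟩ := hdz.inter_open_nonempty _ hopen
      ⟨⟨(a + b) / 2, by linarith⟩, by constructor <;> simp only <;> linarith⟩
    obtain ⟨n, hn⟩ := Subgroup.mem_zpowers_iff.1 hxz
    refine hno n ?_
    have h5 : (x : ℝ) = (e : ℝ) ^ n := by
      rw [← hn]
      rfl
    rw [← h5]
    exact hx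

end Pool.Agent.Results.MP_7fe07c_an.TwoScalings
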